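import Mathlib

/-!
An Anosov matrix that is recognizable in no Nies-Semukhin presentation of the rank two lattice.
-/

namespace Pool.Agent.Results.MP_334179_al.AnosovNotFA

open Polynomial

/-- The index set: `1 + |p| < |q|`, `gcd (p, q) = 1`, and `p ^ 2 + 4 q` is one of `-4, -3, 1, 4`
or a positive non-square. -/
def InP (p q : ℤ) : Prop :=
  1 + |p| < |q| ∧ Int.gcd p q = 1 ∧
    (p ^ 2 + 4 * q = -4 ∨ p ^ 2 + 4 * q = -3 ∨ p ^ 2 + 4 * q = 1 ∨ p ^ 2 + 4 * q = 4 ∨
      (0 < p ^ 2 + 4 * q ∧ ¬ IsSquare (p ^ 2 + 4 * q)))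

/-- The alphabet `{-(|q| - 1), …, |q| - 1}` with its natural order. -/
abbrev Digit (q : ℤ) : Type := {a : ℤ // a ∈ Finset.Icc (-(|q| - 1)) (|q| - 1)}

/-- The polynomial `t = x ^ 2 + p x - q`. -/
noncomputable def tpoly (p q : ℤ) : ℤ[X] := X ^ 2 + C p * X - C q

/-- The polynomial `∑ a_i x ^ i` of a string `a_0 a_1 ⋯ a_k`. -/
noncomputable def poly {q : ℤ} (w : List (Digit q)) : ℤ[X] :=
  ∑ i : Fin w.length, C (w.get i).val * X ^ (i : ℕ)

/-- The domain: strings with no length-lexicographically smaller equivalent string. -/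
def Dom (p q : ℤ) : Set (List (Digit q)) :=
  {w | ¬ ∃ u : List (Digit q), List.Shortlex (· < ·) u w ∧ tpoly p q ∣ poly u - poly w}

/-- The presentation map: the coefficients `(c_0, c_1)` of the remainder modulo `t`. -/
noncomputable def psi (p q : ℤ) (w : List (Digit q)) : Fin 2 → ℤ :=
  fun i => (poly w %ₘ tpoly p q).coeff i

/-- Convolution of two strings, `none` being the padding symbol. -/
def conv {α : Type} (u v : List α) : List (Option α × Option α) :=
  (List.range (max u.length v.length)).map fun k => (u[k]?, v[k]?)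

/-- `A` is FA-recognizable with respect to the presentation for `(p, q)`. -/
def FARec (p q : ℤ) (A : Matrix (Fin 2) (Fin 2) ℤ) : Prop :=
  Language.IsRegular
    {s | ∃ u ∈ Dom p q, ∃ v ∈ Dom p q, psi p q v = A.mulVec (psi p q u) ∧ s = conv u v}

/-! ### Convolution -/

lemma conv_getElem? {α : Type} (u v : List α) (k : ℕ) :
    (conv u v)[k]? = if k < max u.length v.length then some (u[k]?, v[k]?) else none := by
  unfold conv
  split_ifs with h
  · rw [List.getElem?_map, List.getElem?_range h]; rfl
  · rw [List.getElem?_eq_none]; simpa using h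

lemma conv_length {α : Type} (u v : List α) : (conv u v).length = max u.length v.length := by
  simp [conv]

lemma conv_inj {α : Type} {u v u' v' : List α} (h : conv u v = conv u' v') : u = u' ∧ v = v' := by
  have hl : max u.length v.length = max u'.length v'.length := by
    rw [← conv_length, h, conv_length]
  have hk : ∀ k : ℕ, u[k]? = u'[k]? ∧ v[k]? = v'[k]? := by
    intro k
    have e := conv_getElem? u v k
    rw [h, conv_getElem?, ← hl] at e
    by_cases hlt : k < max u.length v.length
    · simp only [hlt, if_true, Option.some.injEq, Prod.mk.injEq] at e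
      exact ⟨e.1.symm, e.2.symm⟩
    · have h2 := hlt
      rw [hl] at h2
      rw [List.getElem?_eq_none (by omega), List.getElem?_eq_none (by omega),
        List.getElem?_eq_none (by omega), List.getElem?_eq_none (by omega)]
      exact ⟨rfl, rfl⟩
  exact ⟨List.ext_getElem? fun k => (hk k).1, List.ext_getElem? fun k => (hk k).2⟩

lemma conv_append {α : Type} {u v : List α} (h : u.length = v.length) (u' v' : List α) :
    conv u v ++ conv u' v' = conv (u ++ u') (v ++ v') := by
  apply List.ext_getElem?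
  intro k
  rw [List.getElem?_append, conv_length, conv_getElem?, conv_getElem?, conv_getElem?,
    List.getElem?_append, List.getElem?_append, List.length_append, List.length_append, ← h,
    max_self]
  by_cases h1 : k < u.length
  · have : k < max (u.length + u'.length) (u.length + v'.length) := by omega
    simp only [h1, this, if_true]
  · by_cases h2 : k - u.length < max u'.length v'.length
    · have : k < max (u.length + u'.length) (u.length + v'.length) := by omega
      simp only [h1, h2, this, if_true, if_false]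
    · have : ¬ k < max (u.length + u'.length) (u.length + v'.length) := by omega
      simp only [h1, h2, this, if_false]

/-! ### Evaluation in the lattice -/

/-- multiplication by `x` in the basis `1, x` -/
def mx (p q : ℤ) (c : ℤ × ℤ) : ℤ × ℤ := (q * c.2, c.1 - p * c.2)

/-- value of a list of integers -/
def ev (p q : ℤ) : List ℤ → ℤ × ℤ
  | [] => 0
  | a :: w => (a, 0) + mx p q (ev p q w)

/-- value of a string -/
def evd (p q : ℤ) (w : List (Digit q)) : ℤ × ℤ := ev p q (w.map Subtype.val)

lemma mx_add (p q : ℤ) (c d : ℤ × ℤ) : mx p q (c + d) = mx p q c + mx p q d := by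
  simp only [mx, Prod.fst_add, Prod.snd_add, Prod.mk_add_mk, Prod.mk.injEq]
  constructor <;> ring

lemma ev_append (p q : ℤ) (u w : List ℤ) :
    ev p q (u ++ w) = ev p q u + (mx p q)^[u.length] (ev p q w) := by
  induction u with
  | nil => simp [ev]
  | cons a u ih =>
    simp only [List.cons_append, ev, ih, mx_add, List.length_cons, Function.iterate_succ_apply']
    rw [add_assoc]

lemma evd_append (p q : ℤ) (u w : List (Digit q)) :
    evd p q (u ++ w) = evd p q u + (mx p q)^[u.length] (evd p q w) := by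
  simp [evd, ev_append]

lemma iter_form (p q : ℤ) (hpq : IsCoprime p q) (j : ℕ) :
    ∃ a b : ℤ, (∀ c : ℤ × ℤ, (mx p q)^[j + 1] c =
      (a * c.1 + b * q * c.2, b * c.1 + (a - p * b) * c.2)) ∧ q ∣ a ∧ IsCoprime b q := by
  induction j with
  | zero =>
    refine ⟨0, 1, fun c => ?_, dvd_zero _, isCoprime_one_left⟩
    simp only [zero_add, Function.iterate_one, mx, Prod.mk.injEq]
    constructor <;> ring
  | succ j ih =>
    obtain ⟨a, b, h, ⟨a', rfl⟩, hb⟩ := ih
    refine ⟨q * b, q * a' - p * b, fun c => ?_, dvd_mul_right _ _, ?_⟩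
    · rw [Function.iterate_succ_apply', h]
      simp only [mx, Prod.mk.injEq]
      constructor <;> ring
    · have h1 : IsCoprime (-(p * b)) q := (hpq.mul_left hb).neg_left
      have := h1.add_mul_left_left a'
      rwa [show -(p * b) + q * a' = q * a' - p * b by ring] at this

lemma poly_cons {q : ℤ} (a : Digit q) (w : List (Digit q)) :
    poly (a :: w) = C a.val + X * poly w := by
  simp only [poly, List.length_cons, Fin.sum_univ_succ, Finset.mul_sum]
  congr 1
  · simp
  · refine Finset.sum_congr rfl fun i _ => ?_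
    simp only [List.get_cons_succ', Fin.val_succ]
    ring

lemma dvd_poly_sub (p q : ℤ) (w : List (Digit q)) :
    tpoly p q ∣ poly w - (C (evd p q w).1 + C (evd p q w).2 * X) := by
  induction w with
  | nil => simp [poly, evd, ev]
  | cons a w ih =>
    obtain ⟨g, hg⟩ := ih
    refine ⟨X * g + C (evd p q w).2, ?_⟩
    rw [poly_cons, sub_eq_iff_eq_add.1 hg]
    simp only [evd, List.map_cons, ev, mx, Prod.fst_add, Prod.snd_add, tpoly, map_add, map_mul,
      map_sub, zero_add]
    ring

lemma tpoly_monic (p q : ℤ) : (tpoly p q).Monic := by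
  unfold tpoly
  monicity!

lemma tpoly_degree (p q : ℤ) : (tpoly p q).degree = 2 := by
  unfold tpoly
  compute_degree!

lemma psi_eq (p q : ℤ) (w : List (Digit q)) :
    psi p q w = ![(evd p q w).1, (evd p q w).2] := by
  have h1 := modByMonic_eq_of_dvd_sub (tpoly_monic p q) (dvd_poly_sub p q w)
  have h2 : (C (evd p q w).1 + C (evd p q w).2 * X) %ₘ tpoly p q
      = C (evd p q w).1 + C (evd p q w).2 * X := by
    rw [modByMonic_eq_self_iff (tpoly_monic p q), tpoly_degree]
    compute_degree!
  funext i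
  unfold psi
  rw [h1, h2]
  fin_cases i <;> simp [-eq_intCast, coeff_X, coeff_C]

/-! ### Every lattice point is represented -/

lemma pad2 (p q : ℤ) (T : List ℤ) : ∃ b c T', ev p q T = ev p q (b :: c :: T') ∧
    (T.map Int.natAbs).sum = ((b :: c :: T').map Int.natAbs).sum := by
  match T with
  | [] => exact ⟨0, 0, [], by simp [ev, mx, Prod.ext_iff], by simp⟩
  | [b] => exact ⟨b, 0, [], by simp [ev, mx], by simp⟩
  | b :: c :: T' => exact ⟨b, c, T', rfl, rfl⟩

lemma reduce_step {p q : ℤ} (h : 1 + |p| < |q|) (L : List ℤ) (hL : ∃ a ∈ L, |q| ≤ |a|) :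
    ∃ L' : List ℤ, ev p q L' = ev p q L ∧ (L'.map Int.natAbs).sum < (L.map Int.natAbs).sum := by
  induction L with
  | nil => simp at hL
  | cons a T ih =>
    by_cases ha : |q| ≤ |a|
    · obtain ⟨b, c, T', e1, e2⟩ := pad2 p q T
      obtain ⟨ε, hε, hε'⟩ : ∃ ε : ℤ, (ε = 1 ∨ ε = -1) ∧ |a - ε * q| = |a| - |q| := by
        by_cases h1 : 0 ≤ a <;> by_cases h2 : 0 ≤ q
        · refine ⟨1, Or.inl rfl, ?_⟩
          rw [abs_of_nonneg h1, abs_of_nonneg h2] at *
          rw [one_mul, abs_of_nonneg (by omega)]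
        · refine ⟨-1, Or.inr rfl, ?_⟩
          rw [abs_of_nonneg h1, abs_of_neg (not_le.1 h2)] at *
          rw [abs_of_nonneg (by omega)]; ring
        · refine ⟨-1, Or.inr rfl, ?_⟩
          rw [abs_of_neg (not_le.1 h1), abs_of_nonneg h2] at *
          rw [abs_of_nonpos (by omega)]; ring
        · refine ⟨1, Or.inl rfl, ?_⟩
          rw [abs_of_neg (not_le.1 h1), abs_of_neg (not_le.1 h2)] at *
          rw [abs_of_nonpos (by omega)]; ring
      refine ⟨(a - ε * q) :: (b + ε * p) :: (c + ε) :: T', ?_, ?_⟩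
      · simp only [ev, e1, mx, Prod.mk_add_mk, Prod.mk.injEq]
        constructor <;> ring
      · simp only [List.map_cons, List.sum_cons, e2]
        rw [Int.abs_eq_natAbs, Int.abs_eq_natAbs, Int.abs_eq_natAbs] at hε'
        rw [Int.abs_eq_natAbs, Int.abs_eq_natAbs] at h
        rcases hε with rfl | rfl <;> omega
    · obtain ⟨x, hx, hx'⟩ := hL
      rcases List.mem_cons.1 hx with rfl | hx
      · exact absurd hx' ha
      · obtain ⟨L', e1, e2⟩ := ih ⟨x, hx, hx'⟩
        exact ⟨a :: L', by simp only [ev, e1], by simpa using e2⟩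

lemma exists_digits {p q : ℤ} (h : 1 + |p| < |q|) (L : List ℤ) :
    ∃ w : List (Digit q), evd p q w = ev p q L := by
  induction hn : (L.map Int.natAbs).sum using Nat.strong_induction_on generalizing L with
  | _ n ih =>
    by_cases hL : ∃ a ∈ L, |q| ≤ |a|
    · obtain ⟨L', e1, e2⟩ := reduce_step h L hL
      obtain ⟨w, hw⟩ := ih _ (hn ▸ e2) L' rfl
      exact ⟨w, hw.trans e1⟩
    · have hL' : ∀ a ∈ L, a ∈ Finset.Icc (-(|q| - 1)) (|q| - 1) := by
        intro a ha
        have : |a| < |q| := not_le.1 fun h' => hL ⟨a, ha, h'⟩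
        rw [Finset.mem_Icc, ← abs_le]
        omega
      lift L to List (Digit q) using hL'
      exact ⟨L, rfl⟩

lemma exists_dom {p q : ℤ} (h : 1 + |p| < |q|) (c : ℤ × ℤ) :
    ∃ w ∈ Dom p q, evd p q w = c := by
  obtain ⟨w, hw⟩ := exists_digits h [c.1, c.2]
  have hc : ev p q [c.1, c.2] = c := by simp [ev, mx]
  have wf : WellFounded (List.Shortlex (· < · : Digit q → Digit q → Prop)) :=
    List.Shortlex.wf wellFounded_lt
  obtain ⟨u, hu, hmin⟩ := wf.has_min {u | tpoly p q ∣ poly u - poly w} ⟨w, by simp⟩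
  refine ⟨u, ?_, ?_⟩
  · rintro ⟨u', h1, h2⟩
    refine hmin u' ?_ h1
    have := dvd_add h2 hu
    simpa using this
  · have e : psi p q u = psi p q w := by
      funext i
      unfold psi
      rw [modByMonic_eq_of_dvd_sub (tpoly_monic p q) hu]
    rw [psi_eq, psi_eq, hw, hc] at e
    have e0 := congrFun e 0
    have e1 := congrFun e 1
    simp only [Matrix.cons_val_zero, Matrix.cons_val_one] at e0 e1
    exact Prod.ext e0 e1

/-! ### The main argument -/

lemma finite_line {α β γ : ℤ} (h : α ≠ 0 ∨ β ≠ 0) : {n : ℤ | α * n + β * n ^ 2 = γ}.Finite := by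
  have hne : (C β * X ^ 2 + C α * X - C γ : ℤ[X]) ≠ 0 := by
    intro h0
    have h1 := congrArg (fun f => coeff f 1) h0
    have h2 := congrArg (fun f => coeff f 2) h0
    simp [-eq_intCast, coeff_X, coeff_C] at h1 h2
    tauto
  refine (Polynomial.finite_setOfPred_isRoot hne).subset fun n hn => ?_
  simp only [Set.mem_ofPred_eq, IsRoot.def, eval_sub, eval_add, eval_mul, eval_C, eval_pow,
    eval_X] at hn ⊢
  linarith

/-- the language of the graph of the matrix with rows `(2, 1)` and `(1, 1)` -/
def lang (p q : ℤ) : Language (Option (Digit q) × Option (Digit q)) :=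
  {s | ∃ u ∈ Dom p q, ∃ v ∈ Dom p q,
    evd p q v = (2 * (evd p q u).1 + (evd p q u).2, (evd p q u).1 + (evd p q u).2) ∧ s = conv u v}

lemma exists_good {p q : ℤ} (h : 1 + |p| < |q|) (k : ℕ) :
    ∃ u v : List (Digit q), u.length = k ∧ v.length = k ∧
      ¬ ∃ α β γ : ℤ, (α ≠ 0 ∨ β ≠ 0) ∧ ∀ u' v', conv (u ++ u') (v ++ v') ∈ lang p q →
        α * (evd p q (u ++ u')).1 + β * (evd p q (u ++ u')).2 = γ := by
  by_contra hcon
  push Not at hcon
  choose! α β γ hαβ hline using hcon
  have f1 : ((fun u => (evd p q u).1) '' {u : List (Digit q) | u.length < k}).Finite :=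
    (List.finite_length_lt _ k).image _
  have f2 : ((fun v => (evd p q v).1 - (evd p q v).2) ''
      {v : List (Digit q) | v.length < k}).Finite := (List.finite_length_lt _ k).image _
  have f3 : (⋃ u ∈ {u : List (Digit q) | u.length = k}, ⋃ v ∈ {v : List (Digit q) | v.length = k},
      {n : ℤ | α u v * n + β u v * n ^ 2 = γ u v}).Finite :=
    (List.finite_length_eq _ k).biUnion fun u hu => (List.finite_length_eq _ k).biUnion
      fun v hv => finite_line (hαβ u v hu hv)
  refine Set.infinite_univ (α := ℤ) (((f1.union f2).union f3).subset fun n _ => ?_)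
  obtain ⟨u, hu, eu⟩ := exists_dom h (n, n ^ 2)
  obtain ⟨v, hv, ev'⟩ := exists_dom h (2 * n + n ^ 2, n + n ^ 2)
  by_cases h1 : u.length < k
  · exact Or.inl (Or.inl ⟨u, h1, by simp [eu]⟩)
  by_cases h2 : v.length < k
  · exact Or.inl (Or.inr ⟨v, h2, by simp only [ev']; ring⟩)
  refine Or.inr ?_
  have l1 : (u.take k).length = k := by simp; omega
  have l2 : (v.take k).length = k := by simp; omega
  simp only [Set.mem_iUnion]
  refine ⟨u.take k, l1, v.take k, l2, ?_⟩
  have := hline _ _ l1 l2 (u.drop k) (v.drop k) (by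
    rw [List.take_append_drop, List.take_append_drop]
    exact ⟨u, hu, v, hv, by rw [eu, ev'], rfl⟩)
  rw [List.take_append_drop, eu] at this
  exact this

lemma not_regular {p q : ℤ} (h : 1 + |p| < |q|) (hpq : IsCoprime p q) :
    ¬ (lang p q).IsRegular := by
  intro hreg
  have hfin := hreg.finite_range_leftQuotient
  choose u v hu hv hgood using exists_good h
  obtain ⟨k, l, hkl, he⟩ := hfin.exists_lt_map_eq_of_forall_mem
    (f := fun k : ℕ => (lang p q).leftQuotient (conv (u k) (v k))) (fun k => Set.mem_range_self _)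
  obtain ⟨j, rfl⟩ : ∃ j, l = (j + 1) + k := ⟨l - k - 1, by omega⟩
  obtain ⟨a, b, hN, -, hb⟩ := iter_form p q hpq j
  have hp0 := abs_nonneg p
  have hb0 : b ≠ 0 := by
    rintro rfl
    rw [isCoprime_zero_left, Int.isUnit_iff_abs_eq] at hb
    omega
  have hq1 : q - 1 ≠ 0 := by
    intro h1
    have : q = 1 := by omega
    rw [this] at h
    simp at h
    omega
  apply hgood k
  refine ⟨b * (q - 1), b * p - b * q,
    2 * (evd p q (u (j + 1 + k))).1 + (evd p q (u (j + 1 + k))).2 - (evd p q (v (j + 1 + k))).1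
      - 2 * (a * (evd p q (u k)).1 + b * q * (evd p q (u k)).2)
      - (b * (evd p q (u k)).1 + (a - p * b) * (evd p q (u k)).2)
      + (a * (evd p q (v k)).1 + b * q * (evd p q (v k)).2),
    Or.inl (mul_ne_zero hb0 hq1), fun u' v' hm => ?_⟩
  have hm2 : conv (u (j + 1 + k) ++ u') (v (j + 1 + k) ++ v') ∈ lang p q := by
    rw [← conv_append ((hu _).trans (hv _).symm), ← Language.mem_leftQuotient]
    rw [← conv_append ((hu _).trans (hv _).symm), ← Language.mem_leftQuotient] at hm
    rwa [← he]
  obtain ⟨u1, -, v1, -, e1, c1⟩ := hm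
  obtain ⟨u2, -, v2, -, e2, c2⟩ := hm2
  obtain ⟨rfl, rfl⟩ := conv_inj c1
  obtain ⟨rfl, rfl⟩ := conv_inj c2
  simp only [evd_append, hu, hv, Function.iterate_add_apply _ (j + 1) k, hN] at e1 e2 ⊢
  set s := (mx p q)^[k] (evd p q u')
  set r := (mx p q)^[k] (evd p q v')
  have e11 := congrArg Prod.fst e1
  have e12 := congrArg Prod.snd e1
  have e21 := congrArg Prod.fst e2
  simp only [Prod.fst_add, Prod.snd_add] at e11 e12 e21 ⊢
  linear_combination e21 - a * e11 - b * q * e12

theorem result : ∃ A : Matrix.SpecialLinearGroup (Fin 2) ℤ,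
    2 < |Matrix.trace A.val| ∧ ∀ p q : ℤ, InP p q → ¬ FARec p q A.val := by
  refine ⟨⟨!![2, 1; 1, 1], by simp [Matrix.det_fin_two]⟩, by simp [Matrix.trace_fin_two], ?_⟩
  rintro p q ⟨h, hg, -⟩ hreg
  apply not_regular h (Int.isCoprime_iff_gcd_eq_one.2 hg)
  have : lang p q = {s | ∃ u ∈ Dom p q, ∃ v ∈ Dom p q,
      psi p q v = (!![2, 1; 1, 1] : Matrix (Fin 2) (Fin 2) ℤ).mulVec (psi p q u) ∧ s = conv u v} := by
    unfold lang
    congr 1
    funext s
    refine propext (exists_congr fun u => and_congr_right fun _ => exists_congr fun v =>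
      and_congr_right fun _ => and_congr_left fun _ => ?_)
    rw [psi_eq, psi_eq, Prod.ext_iff, funext_iff, Fin.forall_fin_two]
    simp [Matrix.mulVec, dotProduct, Fin.sum_univ_two]
  rw [this]
  exact hreg

end Pool.Agent.Results.MP_334179_al.AnosovNotFA
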