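import Pool.Agent.MP_334179_al.NS.Graph

/-!
Which conjugacy classes of Anosov matrices contain a matrix that is recognizable in some
Nies-Semukhin presentation of the rank two lattice.
-/

namespace Pool.Agent.Results.MP_334179_al.ConjugacyClasses

open Pool.Agent.MP_334179_al.NS

/-- Every order of positive discriminant has a generator with admissible trace and norm. -/
lemma exists_shift (T n : ℤ) (hD : 0 < T ^ 2 + 4 * n) :
    ∃ k : ℤ, 1 + |-(T + 2 * k)| < |n - k * (T + k)| ∧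
      IsCoprime (-(T + 2 * k)) (n - k * (T + k)) := by
  rcases Int.even_or_odd' T with ⟨s, rfl | rfl⟩
  · obtain ⟨E, hE⟩ : ∃ E, E = s ^ 2 + n := ⟨_, rfl⟩
    have hE1 : 1 ≤ E := by nlinarith
    obtain rfl : n = E - s ^ 2 := by linarith
    refine ⟨-s - (7 * E + 1), ?_, ?_⟩
    · rw [show -(2 * s + 2 * (-s - (7 * E + 1))) = 14 * E + 2 by ring,
        show E - s ^ 2 - (-s - (7 * E + 1)) * (2 * s + (-s - (7 * E + 1)))
          = -(49 * E ^ 2 + 13 * E + 1) by ring, abs_neg, abs_of_pos (by positivity),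
        abs_of_pos (by positivity)]
      nlinarith
    · rw [show -(2 * s + 2 * (-s - (7 * E + 1))) = 2 * (7 * E + 1) by ring,
        show E - s ^ 2 - (-s - (7 * E + 1)) * (2 * s + (-s - (7 * E + 1)))
          = -(49 * E ^ 2 + 13 * E + 1) by ring]
      obtain ⟨m, hm⟩ := Int.even_mul_succ_self E
      refine IsCoprime.mul_left ⟨-(m + 24 * E ^ 2 + 6 * E), -1, ?_⟩
        ⟨1 - 7 * (7 * E + 1), -7, by ring⟩
      linear_combination hm
  · obtain ⟨E, hE⟩ : ∃ E, E = s ^ 2 + s + n := ⟨_, rfl⟩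
    have hE1 : 0 ≤ E := by nlinarith
    obtain rfl : n = E - s ^ 2 - s := by linarith
    refine ⟨-(3 * (4 * E + 1) + s + 1), ?_, ?_⟩
    · rw [show -(2 * s + 1 + 2 * -(3 * (4 * E + 1) + s + 1)) = 24 * E + 7 by ring,
        show E - s ^ 2 - s - -(3 * (4 * E + 1) + s + 1) * (2 * s + 1 + -(3 * (4 * E + 1) + s + 1))
          = -(144 * E ^ 2 + 83 * E + 12) by ring, abs_neg, abs_of_pos (by positivity),
        abs_of_pos (by positivity)]
      nlinarith
    · rw [show -(2 * s + 1 + 2 * -(3 * (4 * E + 1) + s + 1)) = 24 * E + 7 by ring,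
        show E - s ^ 2 - s - -(3 * (4 * E + 1) + s + 1) * (2 * s + 1 + -(3 * (4 * E + 1) + s + 1))
          = -(144 * E ^ 2 + 83 * E + 12) by ring]
      exact ⟨1 - 6 * (24 * E + 7), -24, by ring⟩

lemma not_square {t g D : ℤ} (ht : 2 < |t|) (h : g ^ 2 * D = t ^ 2 - 4) : ¬ IsSquare D := by
  rintro ⟨s, rfl⟩
  have h1 : |g * s| ^ 2 = |t| ^ 2 - 4 := by
    rw [sq_abs, sq_abs]
    linear_combination h
  have h2 := abs_nonneg (g * s)
  have h3 : |g * s| ≤ |t| - 1 := by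
    by_contra hc
    nlinarith
  nlinarith

lemma forward {a b c d x y z w ε α β p q : ℤ} (hε : x * w - z * y = ε) (hεε : ε * ε = 1)
    (h1 : a * x + b * y = x * α + z * β) (h2 : c * x + d * y = y * α + w * β)
    (h3 : a * z + b * w = x * (β * q) + z * (α - β * p))
    (h4 : c * z + d * w = y * (β * q) + w * (α - β * p)) :
    (c * x ^ 2 + (d - a) * x * y - b * y ^ 2).natAbs = Int.gcd (Int.gcd b c) (a - d) := by
  have hf : c * x ^ 2 + (d - a) * x * y - b * y ^ 2 = β * ε := by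
    linear_combination x * h2 - y * h1 + β * hε
  have hb : β ∣ b := ⟨ε * (x ^ 2 * q - x * z * p - z ^ 2), by
    linear_combination (ε * x) * h3 - (ε * z) * h1 - (ε * b) * hε - b * hεε⟩
  have hc : β ∣ c := ⟨ε * (w ^ 2 - y ^ 2 * q + y * w * p), by
    linear_combination (ε * w) * h2 - (ε * y) * h4 - (ε * c) * hε - c * hεε⟩
  have had : β ∣ a - d := ⟨ε * (2 * z * w - 2 * x * y * q + (z * y + x * w) * p), by
    linear_combination (ε * w) * h1 - (ε * y) * h3 - (ε * x) * h4 + (ε * z) * h2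
      - (ε * (a - d)) * hε - (a - d) * hεε⟩
  apply Nat.dvd_antisymm
  · rw [hf, ← Int.natCast_dvd_natCast, Int.natAbs_dvd]
    have hu : IsUnit ε := IsUnit.of_mul_eq_one ε hεε
    rw [hu.mul_right_dvd]
    exact Int.dvd_coe_gcd (Int.dvd_coe_gcd hb hc) had
  · rw [← Int.natCast_dvd_natCast, Int.dvd_natAbs]
    have g1 : ((Int.gcd (Int.gcd b c) (a - d) : ℕ) : ℤ) ∣ b :=
      (Int.gcd_dvd_left _ _).trans (Int.gcd_dvd_left _ _)
    have g2 : ((Int.gcd (Int.gcd b c) (a - d) : ℕ) : ℤ) ∣ c :=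
      (Int.gcd_dvd_left _ _).trans (Int.gcd_dvd_right _ _)
    have g3 : ((Int.gcd (Int.gcd b c) (a - d) : ℕ) : ℤ) ∣ a - d := Int.gcd_dvd_right _ _
    rw [show c * x ^ 2 + (d - a) * x * y - b * y ^ 2
      = c * x ^ 2 - (a - d) * (x * y) - b * y ^ 2 by ring]
    exact dvd_sub (dvd_sub (g2.mul_right _) (g3.mul_right _)) (g1.mul_right _)

/-- The conjugacy class in `GL(2, ℤ)` of an Anosov matrix with rows `(a, b)`, `(c, d)` contains a
matrix that is FA-recognizable in some Nies-Semukhin presentation exactly when the form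
`c x ^ 2 + (d - a) x y - b y ^ 2` takes one of the values `± gcd (b, c, a - d)`. -/
theorem result (A : Matrix.SpecialLinearGroup (Fin 2) ℤ) (hA : 2 < |Matrix.trace A.val|) :
    (∃ P : GL (Fin 2) ℤ, ∃ p q : ℤ, InP p q ∧ FARec p q (P.val * A.val * (P⁻¹).val)) ↔
      ∃ x y : ℤ, (A.val 1 0 * x ^ 2 + (A.val 1 1 - A.val 0 0) * x * y - A.val 0 1 * y ^ 2).natAbs
        = Int.gcd (Int.gcd (A.val 0 1) (A.val 1 0)) (A.val 0 0 - A.val 1 1) := by
  have hdet : ∀ P : GL (Fin 2) ℤ, (P.val * A.val * (P⁻¹).val).det ≠ 0 := by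
    intro P
    rw [Matrix.det_mul, Matrix.det_mul, A.det_coe, mul_one, ← Matrix.det_mul, Units.mul_inv,
      Matrix.det_one]
    exact one_ne_zero
  constructor
  · rintro ⟨P, p, q, ⟨h, hg, -⟩, hrec⟩
    obtain ⟨e1, e2⟩ := (faRec_iff_mul h (Int.isCoprime_iff_gcd_eq_one.2 hg) _ (hdet P)).1 hrec
    set B := P.val * A.val * (P⁻¹).val with hB
    set Q := (P⁻¹).val with hQ
    have hAQ : A.val * Q = Q * B := by
      rw [hB, ← Matrix.mul_assoc, ← Matrix.mul_assoc, hQ, Units.inv_mul, Matrix.one_mul]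
    have hu : IsUnit Q.det := (Matrix.isUnit_iff_isUnit_det _).1 (P⁻¹).isUnit
    have hεε : Q.det * Q.det = 1 := by
      rcases Int.isUnit_iff.1 hu with h1 | h1 <;> rw [h1] <;> norm_num
    have k00 := congrFun (congrFun hAQ 0) 0
    have k01 := congrFun (congrFun hAQ 0) 1
    have k10 := congrFun (congrFun hAQ 1) 0
    have k11 := congrFun (congrFun hAQ 1) 1
    simp only [Matrix.mul_apply, Fin.sum_univ_two] at k00 k01 k10 k11
    rw [e1, e2] at k01 k11
    exact ⟨Q 0 0, Q 1 0, forward (Matrix.det_fin_two Q).symm hεε k00 k10 k01 k11⟩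
  · rintro ⟨x, y, hxy⟩
    have hd := A.det_coe
    rw [Matrix.det_fin_two] at hd
    rw [Matrix.trace_fin_two] at hA
    obtain ⟨g, hg⟩ : ∃ g : ℤ, g = ((Int.gcd (Int.gcd (A.val 0 1) (A.val 1 0))
      (A.val 0 0 - A.val 1 1) : ℕ) : ℤ) := ⟨_, rfl⟩
    obtain ⟨b, hb⟩ : g ∣ A.val 0 1 := hg ▸ (Int.gcd_dvd_left _ _).trans (Int.gcd_dvd_left _ _)
    obtain ⟨c, hc⟩ : g ∣ A.val 1 0 := hg ▸ (Int.gcd_dvd_left _ _).trans (Int.gcd_dvd_right _ _)
    obtain ⟨T, hT⟩ : g ∣ A.val 0 0 - A.val 1 1 := hg ▸ Int.gcd_dvd_right _ _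
    have hD : g ^ 2 * (T ^ 2 + 4 * (b * c)) = (A.val 0 0 + A.val 1 1) ^ 2 - 4 := by
      rw [hb, hc] at hd
      linear_combination -4 * hd - (A.val 0 0 - A.val 1 1 + g * T) * hT
    have ht : 0 < (A.val 0 0 + A.val 1 1) ^ 2 - 4 := by
      rw [← sq_abs]
      nlinarith
    have hg0 : g ≠ 0 := by
      rintro rfl
      rw [← hD] at ht
      simp at ht
    have hDpos : 0 < T ^ 2 + 4 * (b * c) := by
      rw [← hD] at ht
      exact (pos_iff_pos_of_mul_pos ht).1 (by positivity)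
    obtain ⟨ε, hε⟩ : ∃ ε, ε = c * x ^ 2 - T * x * y - b * y ^ 2 := ⟨_, rfl⟩
    have hεε : ε * ε = 1 := by
      have h1 : A.val 1 0 * x ^ 2 + (A.val 1 1 - A.val 0 0) * x * y - A.val 0 1 * y ^ 2
          = g * ε := by
        rw [hb, hc, hε]
        linear_combination (-(x * y)) * hT
      have h2 : |g * ε| = g := by
        rw [← h1, Int.abs_eq_natAbs, hxy, hg]
      have h3 : (g * ε) ^ 2 = g ^ 2 := by rw [← sq_abs, h2]
      have h4 : g ^ 2 * (ε * ε - 1) = 0 := by linear_combination h3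
      have := (mul_eq_zero.1 h4).resolve_left (pow_ne_zero 2 hg0)
      linarith
    obtain ⟨k, hk1, hk2⟩ := exists_shift T (b * c) hDpos
    let Q : Matrix (Fin 2) (Fin 2) ℤ := !![x, (T + k) * x + b * y; y, c * x + k * y]
    let Pm : Matrix (Fin 2) (Fin 2) ℤ :=
      !![ε * (c * x + k * y), -(ε * ((T + k) * x + b * y)); -(ε * y), ε * x]
    have hPQ : Pm * Q = 1 := by
      ext i j
      fin_cases i <;> fin_cases j <;> simp [Pm, Q, Matrix.mul_apply, Fin.sum_univ_two]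
      · linear_combination hεε - ε * hε
      · ring
      · ring
      · linear_combination hεε - ε * hε
    let P : GL (Fin 2) ℤ := ⟨Pm, Q, hPQ, mul_eq_one_comm.1 hPQ⟩
    let B : Matrix (Fin 2) (Fin 2) ℤ := !![A.val 1 1 - g * k, g * (b * c - k * (T + k));
      g, A.val 1 1 - g * k - g * -(T + 2 * k)]
    have hAQ : A.val * Q = Q * B := by
      have h00 : A.val 0 0 = A.val 1 1 + g * T := by linarith
      ext i j
      fin_cases i <;> fin_cases j <;>
        simp [Q, B, Matrix.mul_apply, Fin.sum_univ_two, hb, hc, h00] <;> ring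
    have hB : P.val * A.val * (P⁻¹).val = B := by
      show Pm * A.val * Q = B
      rw [Matrix.mul_assoc, hAQ, ← Matrix.mul_assoc, hPQ, Matrix.one_mul]
    refine ⟨P, -(T + 2 * k), b * c - k * (T + k),
      ⟨hk1, Int.isCoprime_iff_gcd_eq_one.1 hk2, Or.inr (Or.inr (Or.inr (Or.inr ?_)))⟩, ?_⟩
    · rw [show (-(T + 2 * k)) ^ 2 + 4 * (b * c - k * (T + k)) = T ^ 2 + 4 * (b * c) by ring]
      exact ⟨hDpos, not_square hA hD⟩
    · refine (faRec_iff_mul hk1 hk2 _ (hdet P)).2 ?_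
      rw [hB]
      simp [B]

/-- Both cases occur: no conjugate of the matrix with rows `(19, 30)`, `(12, 19)` is recognizable
in any presentation. -/
theorem class_without : ∃ A : Matrix.SpecialLinearGroup (Fin 2) ℤ, 2 < |Matrix.trace A.val| ∧
    ∀ P : GL (Fin 2) ℤ, ∀ p q : ℤ, InP p q → ¬ FARec p q (P.val * A.val * (P⁻¹).val) := by
  refine ⟨⟨!![19, 30; 12, 19], by simp [Matrix.det_fin_two]⟩, by simp [Matrix.trace_fin_two], ?_⟩
  intro P p q h1 h2
  obtain ⟨x, y, h⟩ := (result _ (by simp [Matrix.trace_fin_two])).1 ⟨P, p, q, h1, h2⟩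
  simp only [Matrix.of_apply, Matrix.cons_val', Matrix.cons_val_zero, Matrix.cons_val_one,
    Matrix.cons_val_fin_one] at h
  norm_num at h
  have h5 : (2 * x ^ 2 = 1 + 5 * y ^ 2) ∨ (2 * x ^ 2 = -1 + 5 * y ^ 2) := by omega
  have : x % 5 = 0 ∨ x % 5 = 1 ∨ x % 5 = 2 ∨ x % 5 = 3 ∨ x % 5 = 4 := by omega
  have hx : x ^ 2 % 5 = 0 ∨ x ^ 2 % 5 = 1 ∨ x ^ 2 % 5 = 4 := by
    rcases this with h | h | h | h | h <;> simp [pow_two, Int.mul_emod, h]
  omega

/-- The matrix with rows `(2, 1)`, `(1, 1)` has a conjugate that is recognizable in some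
presentation. -/
theorem class_with : ∃ P : GL (Fin 2) ℤ, ∃ p q : ℤ, InP p q ∧
    FARec p q (P.val * !![2, 1; 1, 1] * (P⁻¹).val) :=
  (result ⟨!![2, 1; 1, 1], by simp [Matrix.det_fin_two]⟩ (by simp [Matrix.trace_fin_two])).2
    ⟨1, 0, by simp⟩

end Pool.Agent.Results.MP_334179_al.ConjugacyClasses
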